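import Pool.Agent.Lib.P4cae09.Main

/-!
There is a bounded domain `D ⊆ ℂ⁵` with `C^∞` boundary whose envelope of holomorphy is not finitely
sheeted over `ℂ⁵`.

Definitions (library file `P4cae09.Pub`):
* `HasSmoothBoundary D`: near each boundary point `a` of `D` there is a real `C^∞` function `ρ` with
  `D = {ρ < 0}` near `a` and `dρ(a) ≠ 0`;
* `RiemannDomain n`: a connected Hausdorff space `carrier` with a local homeomorphism `proj` to `ℂⁿ`
  (it induces the complex structure for which `proj` is locally biholomorphic);
* `X.IsHolo F`: `F` is holomorphic on `X`, i.e. `F ∘ e⁻¹` is holomorphic (complex differentiable) for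
  some local inverse `e⁻¹` of `proj` near every point;
* `IsExtension D X ι`: `ι : D → X` is continuous, `proj ∘ ι = id_D` (so `ι` is a holomorphic
  embedding), and every holomorphic function on `D` extends to a holomorphic function on `X`;
* `IsEnvelope D X ι`: `IsExtension D X ι`, and `X` is the largest such Riemann domain: for every
  `(Y, j)` with `IsExtension D Y j` there is a continuous map `φ : Y → X` over `ℂⁿ` with `φ ∘ j = ι`;
* `X.FinitelySheeted`: the cardinalities of the fibres of `proj` are bounded.

The construction and the proof are in the files `Pool/Agent/Lib/P4cae09` (the sketch of each step is in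
the header of each file).
-/

namespace Pool.Agent.Results.MP_4cae09_an.NotFinitelySheeted

open P4cae09

/-- There is a bounded domain `D` in `ℂ⁵` with `C^∞` boundary such that an envelope of holomorphy of `D`
exists, and every envelope of holomorphy `X` of `D` is not finitely sheeted: for every `N` some fibre
of `X → ℂ⁵` has more than `N` points. -/
theorem result : ∃ D : Set (Fin 5 → ℂ), IsOpen D ∧ IsConnected D ∧ Bornology.IsBounded D ∧
    HasSmoothBoundary D ∧ (∃ (X : RiemannDomain 5) (ι : D → X.carrier), IsEnvelope D X ι) ∧
    ∀ (X : RiemannDomain 5) (ι : D → X.carrier), IsEnvelope D X ι →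
      ¬ X.FinitelySheeted ∧ ∀ N : ℕ, ∃ z, (N : ℕ∞) < (X.proj ⁻¹' {z}).encard :=
  P4cae09.main

end Pool.Agent.Results.MP_4cae09_an.NotFinitelySheeted
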